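import Mathlib
import Pool.Agent.TH863.D.Gcd

/-!
The Fermat-Catalan equation `a^m + b^n = c^k` seen from the second base, with the exponents of the
two other bases having a common divisor: for one hundred per cent of the positive integers `b`
(natural density) no solution with coprime `a`, `c` has `gcd(m, k) ≥ 3` and `n ≥ 3` odd, and none
has `n = 2` and `m`, `k` both divisible by a prime `≥ 5`. The bases `a`, `c` and all three exponents
vary freely.
-/

namespace Pool.Agent.Results.MP_2738db_nt.DifferenceBases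

theorem result : ∀ ε : ℝ, 0 < ε → ∃ N₀ : ℕ, ∀ N : ℕ, N₀ ≤ N →
    (({b : ℕ | 0 < b ∧ b ≤ N ∧ ∃ a c m n k : ℕ, 0 < a ∧ 0 < c ∧ Nat.Coprime a c ∧
      ((Odd n ∧ 3 ≤ n ∧ 3 ≤ Nat.gcd m k) ∨ (n = 2 ∧ ∃ p : ℕ, p.Prime ∧ 5 ≤ p ∧ p ∣ m ∧ p ∣ k)) ∧
      a ^ m + b ^ n = c ^ k}.ncard : ℕ) : ℝ) ≤ ε * N := by
  intro ε hε
  exact Pool.Agent.TH863.D.final hε

end Pool.Agent.Results.MP_2738db_nt.DifferenceBases
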