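import Mathlib
import Pool.Agent.TH888.B2.All

/-!
The Fermat-Catalan equation with one large exponent: for one hundred per cent of the integers `B`
and EVERY second base `A ≤ N ^ K` at once.

For every `K` and `ε > 0` there is `Z₀` such that for all but `ε N` of the integers `B ≤ N` and for
every `A ≤ N ^ K` coprime to `B` none of the numbers `A ^ x + B ^ y`, `|A ^ x - B ^ y|` (`x ≥ 2`,
`y ≥ 1`) is a `z`-th power with `z ≥ Z₀`. (The starting file `LargeExponent` has `A ≤ N ^ (1 - ε)`.)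
-/

set_option autoImplicit false

namespace Pool.Agent.Results.MP_2738db_nt.EverySmallBase

theorem result (K : ℕ) (ε : ℝ) (hε : 0 < ε) : ∃ Z₀ N₀ : ℕ, ∀ N : ℕ, N₀ ≤ N →
    (({B : ℕ | 0 < B ∧ B ≤ N ∧ ∃ A x y z C : ℕ, 0 < A ∧ A ≤ N ^ K ∧
      Nat.Coprime A B ∧ 2 ≤ x ∧ 0 < y ∧ Z₀ ≤ z ∧ 0 < C ∧
      (A ^ x + B ^ y = C ^ z ∨ A ^ x + C ^ z = B ^ y ∨ B ^ y + C ^ z = A ^ x)}.ncard : ℕ) : ℝ) ≤
      ε * N :=
  Pool.Agent.TH888.B2.all_main K ε hε

end Pool.Agent.Results.MP_2738db_nt.EverySmallBase
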