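import Mathlib
import Pool.Agent.TH888.B1.PrimeMain

/-!
The Fermat-Catalan equation with two bases given by polynomials AT PRIME ARGUMENTS and a free third
base up to `exp (N ^ c)`, all three exponents free.

There is an absolute `c > 0` such that for coprime nonconstant integer polynomials `f`, `g` and 100% of
the primes `p ≤ N` the integers `f(p)` and `g(p)` are not two bases of a primitive solution (with
exponents `l`, `m`, `k`, `1/l + 1/m + 1/k ≤ 1`) whose third base `w` is at most `exp (N ^ c)`.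
-/

set_option autoImplicit false

namespace Pool.Agent.Results.MP_2738db_nt.PrimeArguments

open Polynomial

/-- `f n`, `g n` are (nonzero, coprime, and) two of the bases of a solution with exponents
`l`, `m`, `k ≥ 1` and signs `s`, `t`, where `1/l + 1/m + 1/k ≤ 1`, and the third base `w` is nonzero
of absolute value at most `W`. -/
def Exceptional (f g : ℤ[X]) (W : ℝ) : Set ℕ :=
  {n | ∃ (l m k : ℕ) (s t w : ℤ), 0 < l ∧ 0 < m ∧ 0 < k ∧
    m * k + k * l + l * m ≤ l * m * k ∧ (s = 1 ∨ s = -1) ∧ (t = 1 ∨ t = -1) ∧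
    f.eval (n : ℤ) ≠ 0 ∧ g.eval (n : ℤ) ≠ 0 ∧ w ≠ 0 ∧ |(w : ℝ)| ≤ W ∧
    IsCoprime (f.eval (n : ℤ)) (g.eval (n : ℤ)) ∧
    f.eval (n : ℤ) ^ l + s * g.eval (n : ℤ) ^ m = t * w ^ k}

/-- There is `c > 0` such that for all integer polynomials `f`, `g`, nonconstant and coprime over `ℚ`,
every `ε > 0` and all large `N` at most `ε π(N)` of the primes `p ≤ N` are exceptional with a third
base at most `exp (N ^ c)`. -/
theorem result : ∃ c : ℝ, 0 < c ∧ ∀ f g : ℤ[X], 0 < f.natDegree →
    0 < g.natDegree → IsCoprime (f.map (Int.castRingHom ℚ)) (g.map (Int.castRingHom ℚ)) →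
    ∀ ε : ℝ, 0 < ε → ∃ N₀ : ℕ, ∀ N : ℕ, N₀ ≤ N →
        (({p : ℕ | p ≤ N ∧ p.Prime ∧
          p ∈ Exceptional f g (Real.exp ((N : ℝ) ^ c))}.ncard : ℝ)) ≤ ε * Nat.primeCounting N :=
  Pool.Agent.TH888.B1.prime_main

end Pool.Agent.Results.MP_2738db_nt.PrimeArguments
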