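import Mathlib
import Pool.Agent.TH194.BL.FinW3

/-!
# The Fermat-Catalan equation for random triples of bases: all exponents, all small coefficients,
with a power saving

Fix `k`, `M` and `ε > 0` and let `N` be large. In every box `∏ (a l, a l + b l]` with all sides
`b l ≥ N` all but `N ^ (-1/4 + ε) ∏ b l` of the integer points `(A 1, …, A k)` have the following
property: for all elements `u 1, …, u M` of the multiplicative group generated by `A 1, …, A k` and all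
integers `c 1, …, c M` of absolute value at most `exp ((log N) ^ (1 - ε))` with
`c 1 + … + c M ≠ 0` we have `c 1 u 1 + … + c M u M ≠ 0`. (For `c 1 + … + c M = 0` there is the solution
`u 1 = … = u M = 1`.)

The case `k = M = 3`, `u 1 = A ^ l`, `u 2 = B ^ m`, `u 3 = C ^ n` (theorem `part2` below, a corollary)
is the (generalised) Fermat-Catalan equation: for all but
`N ^ (-1/4 + ε) X Y Z` of the triples `(A, B, C)` of a box with sides `X, Y, Z ≥ N` the equation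
`α A ^ l + β B ^ m = γ C ^ n` has no solution with exponents `l, m, n ≥ 0` and integral coefficients
`α, β, γ` of absolute value at most `exp ((log N) ^ (1 - ε))`, `α + β ≠ γ`; in particular
`A ^ l + B ^ m = C ^ n` has no solution at all in `l, m, n`.
-/

namespace Pool.Agent.Results.MP_2738db_nt.RandomUnitEquations

open Finset Pool.Agent.TH194.BL

theorem part2 (ε : ℝ) (hε : 0 < ε) : ∃ N₀ : ℕ, ∀ N : ℕ, N₀ ≤ N →
    ∀ a₁ a₂ a₃ X Y Z : ℕ, N ≤ X → N ≤ Y → N ≤ Z →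
    (({p : ℕ × ℕ × ℕ | (a₁ < p.1 ∧ p.1 ≤ a₁ + X) ∧ (a₂ < p.2.1 ∧ p.2.1 ≤ a₂ + Y) ∧
      (a₃ < p.2.2 ∧ p.2.2 ≤ a₃ + Z) ∧ ∃ (α β γ : ℤ) (l m n : ℕ),
        |(α : ℝ)| ≤ Real.exp (Real.log N ^ (1 - ε)) ∧ |(β : ℝ)| ≤ Real.exp (Real.log N ^ (1 - ε)) ∧
        |(γ : ℝ)| ≤ Real.exp (Real.log N ^ (1 - ε)) ∧ α + β ≠ γ ∧
        α * (p.1 : ℤ) ^ l + β * (p.2.1 : ℤ) ^ m = γ * (p.2.2 : ℤ) ^ n}.ncard : ℕ) : ℝ) ≤
      (N : ℝ) ^ (-(1 / 4) + ε) * (X * Y * Z) := by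
  obtain ⟨N₀, hN₀⟩ := W.group_form 3 3 hε
  refine ⟨N₀, fun N hN a₁ a₂ a₃ X Y Z hX hY hZ => ?_⟩
  have h := hN₀ N hN ![a₁, a₂, a₃] ![X, Y, Z] (by intro i; fin_cases i <;> simpa)
  have hprod : ∏ i, (((![X, Y, Z] : Fin 3 → ℕ) i : ℕ) : ℝ) = (X : ℝ) * Y * Z := by
    simp [Fin.prod_univ_three]
  rw [hprod] at h
  refine le_trans ?_ h
  have hfin : {A : Fin 3 → ℕ | (∀ l, (![a₁, a₂, a₃] : Fin 3 → ℕ) l < A l ∧
      A l ≤ (![a₁, a₂, a₃] : Fin 3 → ℕ) l + (![X, Y, Z] : Fin 3 → ℕ) l) ∧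
      ∃ (x : Fin 3 → Fin 3 → ℤ) (c : Fin 3 → ℤ),
        (∀ i, |(c i : ℝ)| ≤ Real.exp (Real.log N ^ (1 - ε))) ∧ ∑ i, c i ≠ 0 ∧
        ∑ i, (c i : ℚ) * ∏ l, (A l : ℚ) ^ x i l = 0}.Finite := by
    apply ((Fintype.piFinset (fun i : Fin 3 => Ioc ((![a₁, a₂, a₃] : Fin 3 → ℕ) i)
      ((![a₁, a₂, a₃] : Fin 3 → ℕ) i + (![X, Y, Z] : Fin 3 → ℕ) i))).finite_toSet).subset
    intro A hA
    rw [mem_coe, Fintype.mem_piFinset]
    intro i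
    rw [mem_Ioc]
    exact hA.1 i
  have hle := Set.ncard_le_ncard_of_injOn
    (s := {p : ℕ × ℕ × ℕ | (a₁ < p.1 ∧ p.1 ≤ a₁ + X) ∧ (a₂ < p.2.1 ∧ p.2.1 ≤ a₂ + Y) ∧
      (a₃ < p.2.2 ∧ p.2.2 ≤ a₃ + Z) ∧ ∃ (α β γ : ℤ) (l m n : ℕ),
        |(α : ℝ)| ≤ Real.exp (Real.log N ^ (1 - ε)) ∧ |(β : ℝ)| ≤ Real.exp (Real.log N ^ (1 - ε)) ∧
        |(γ : ℝ)| ≤ Real.exp (Real.log N ^ (1 - ε)) ∧ α + β ≠ γ ∧
        α * (p.1 : ℤ) ^ l + β * (p.2.1 : ℤ) ^ m = γ * (p.2.2 : ℤ) ^ n})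
    (fun p : ℕ × ℕ × ℕ => (![p.1, p.2.1, p.2.2] : Fin 3 → ℕ)) ?_ ?_ hfin
  · exact_mod_cast hle
  · rintro ⟨A, B, C⟩ ⟨hA, hB, hC, α, β, γ, l, m, n, h1, h2, h3, h4, h5⟩
    simp only at hA hB hC h5
    refine ⟨?_, ![![(l : ℤ), 0, 0], ![0, (m : ℤ), 0], ![0, 0, (n : ℤ)]], ![α, β, -γ], ?_, ?_, ?_⟩
    · intro i; fin_cases i
      · exact hA
      · exact hB
      · exact hC
    · intro i; fin_cases i
      · exact h1
      · exact h2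
      · simpa using h3
    · rw [Fin.sum_univ_three]
      simp only [Matrix.cons_val_zero, Matrix.cons_val_one, Matrix.cons_val]
      intro h6
      apply h4
      linarith
    · have h6 : (α : ℚ) * (A : ℚ) ^ l + β * (B : ℚ) ^ m = γ * (C : ℚ) ^ n := by exact_mod_cast h5
      simp only [Fin.sum_univ_three, Fin.prod_univ_three, Matrix.cons_val_zero,
        Matrix.cons_val_one, Matrix.cons_val, zpow_natCast, zpow_zero]
      push_cast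
      linarith
  · rintro ⟨A, B, C⟩ _ ⟨A', B', C'⟩ _ hpp
    have e1 := congrFun hpp 0
    have e2 := congrFun hpp 1
    have e3 := congrFun hpp 2
    simp at e1 e2 e3
    rw [e1, e2, e3]

/-- **Main theorem.** -/
theorem result : ∀ (k M : ℕ) (ε : ℝ), 0 < ε → ∃ N₀ : ℕ, ∀ N : ℕ, N₀ ≤ N →
    ∀ a b : Fin k → ℕ, (∀ l, N ≤ b l) →
    (({A : Fin k → ℕ | (∀ l, a l < A l ∧ A l ≤ a l + b l) ∧
      ∃ (x : Fin M → Fin k → ℤ) (c : Fin M → ℤ),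
        (∀ i, |(c i : ℝ)| ≤ Real.exp (Real.log N ^ (1 - ε))) ∧ ∑ i, c i ≠ 0 ∧
        ∑ i, (c i : ℚ) * ∏ l, (A l : ℚ) ^ x i l = 0}.ncard : ℕ) : ℝ) ≤
      (N : ℝ) ^ (-(1 / 4) + ε) * ∏ l, (b l : ℝ) :=
  fun k M _ hε => W.group_form k M hε

end Pool.Agent.Results.MP_2738db_nt.RandomUnitEquations
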